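import Mathlib
import Pool.Agent.X203.OctE

/-!
If `E` is an `L₁`-predual with the Daugavet property, the norm of the free Banach lattice
`FBL[E]` is octahedral.

The definitions used below are in `Pool.Agent.X203.OctA` (`Daugavet`), `Pool.Agent.X203.OctC`
(`nrm`, `PosHom`, `del`, `IsClosedSublattice`, `FBL`) and `Pool.Agent.X203.OctE`
(`FBLSpace`, the set `FBL E` with the norm `nrm`, and `Octahedral`).
-/

namespace Pool.Agent.Results.MP_93c18e_an.OctahedralFBL

open MeasureTheory
open Pool.Agent.X203.Oct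

/-- `E` is an `L₁`-predual: `E*` is isometrically isomorphic to `L₁(μ)` for some measure `μ`. -/
def IsL1Predual.{u, v} (E : Type u) [NormedAddCommGroup E] [NormedSpace ℝ E] : Prop :=
  ∃ (Ω : Type v) (_ : MeasurableSpace Ω) (μ : Measure Ω), Nonempty ((E →L[ℝ] ℝ) ≃ₗᵢ[ℝ] Lp ℝ 1 μ)

/-- If `E` is a (nonzero) `L₁`-predual with the Daugavet property, then the norm of the free
Banach lattice `FBL[E]` is octahedral. -/
theorem result.{u, v} (E : Type u) [NormedAddCommGroup E] [NormedSpace ℝ E] [Nontrivial E]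
    (hE : IsL1Predual.{u, v} E) (hD : Daugavet E) : Octahedral (FBLSpace E) := by
  obtain ⟨Ω, _, μ, ⟨e⟩⟩ := hE
  exact octahedral_FBL μ e hD

end Pool.Agent.Results.MP_93c18e_an.OctahedralFBL
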